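import Pool.Agent.Helper48.AA.Goals

/-! Packet GP of project AA (MP_6c0525_nt): few large gaps. (helper15) -/

set_option autoImplicit false

open Finset

open scoped Classical

namespace Pool.Agent.Helper15.AA

open Pool.Agent.Helper10.CB (P)
open Pool.Agent.Helper48.AA

theorem P_monotone : Monotone P := by
  intro a b h
  unfold P
  exact Nat.nth_monotone Nat.infinite_setOfPred_prime (by omega)

theorem shift (N w : ℕ) :
    ∑ i ∈ range N, P (i + 1 + w) ≤ ∑ i ∈ range N, P (i + 1) + w * P (N + w) := by
  induction w with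
  | zero => simp
  | succ w ih =>
    have h1 := sum_range_succ (fun i => P (i + 1 + w)) N
    have h2 := sum_range_succ' (fun i => P (i + 1 + w)) N
    have h3 : ∑ i ∈ range N, P (i + 1 + 1 + w) = ∑ i ∈ range N, P (i + 1 + (w + 1)) :=
      sum_congr rfl fun i _ => congrArg P (by ring)
    have h4 : P (N + 1 + w) = P (N + (w + 1)) := congrArg P (by ring)
    have h5 : P (N + w) ≤ P (N + (w + 1)) := P_monotone (by omega)
    have h6 := Nat.mul_le_mul_left w h5
    rw [Nat.add_mul, one_mul]
    omega

theorem gGP : StmtGP := by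
  intro N w G
  have h1 : ∑ M ∈ Icc 1 N, (P M + if P M + G < P (M + w) then G else 0) ≤
      ∑ M ∈ Icc 1 N, P (M + w) := by
    refine sum_le_sum fun M _ => ?_
    split_ifs with h
    · exact h.le
    · rw [add_zero]
      exact P_monotone (by omega)
  rw [sum_add_distrib, ← sum_filter, sum_const, smul_eq_mul] at h1
  have h2 : ∀ f : ℕ → ℕ, ∑ M ∈ Icc 1 N, f M = ∑ i ∈ range N, f (i + 1) := by
    intro f
    rw [← Ico_add_one_right_eq_Icc, sum_Ico_eq_sum_range]
    refine sum_congr (by simp) fun i _ => congrArg f (by ring)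
  rw [h2, h2] at h1
  have h3 := shift N w
  omega

end Pool.Agent.Helper15.AA
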